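import Pool.Agent.Lib.MP_748296_nt.Interfaces

/-!
# MP_748296_nt, module C: the two square roots
-/

namespace Pool.Agent.Lib.MP_748296_nt.H4

open Finset PowerSeries

variable {A : Type} [CommRing A]

/-- The generating function of the central binomial coefficients. -/
noncomputable def cen (A : Type) [CommRing A] : PowerSeries A :=
  PowerSeries.mk (fun n => (Nat.centralBinom n : A))

theorem cen_ode : (1 - 4 * X) * derivative A (cen A) = 2 * cen A := by
  ext n
  have h := Nat.succ_mul_centralBinom_succ n
  have h' : ((n : A) + 1) * (Nat.centralBinom (n + 1) : A) =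
      2 * (2 * (n : A) + 1) * (Nat.centralBinom n : A) := by
    have := congrArg (Nat.cast : ℕ → A) h
    push_cast at this
    exact this
  have e2 : coeff n (2 * cen A) = 2 * (Nat.centralBinom n : A) := by
    have : (2 : PowerSeries A) = C (2 : A) := (map_ofNat C 2).symm
    rw [this, coeff_C_mul]
    simp [cen]
  rw [e2, sub_mul, one_mul, map_sub, coeff_derivative]
  have e4 : (4 : PowerSeries A) = C (4 : A) := (map_ofNat C 4).symm
  rw [mul_assoc, e4, coeff_C_mul]
  cases n with
  | zero =>
    simp only [coeff_zero_X_mul, mul_zero, sub_zero, cen, coeff_mk]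
    push_cast
    simp [Nat.centralBinom]
  | succ n =>
    rw [coeff_succ_X_mul, coeff_derivative]
    simp only [cen, coeff_mk]
    push_cast at h' ⊢
    linear_combination h'

theorem cen_sq [IsAddTorsionFree A] : cen A ^ 2 * (1 - 4 * X) = 1 := by
  apply derivative.ext
  · rw [derivative_one]
    have h := cen_ode (A := A)
    have h1 : derivative A (cen A ^ 2 * (1 - 4 * X)) =
        2 * cen A * ((1 - 4 * X) * derivative A (cen A)) - 4 * cen A ^ 2 := by
      rw [Derivation.leibniz, Derivation.leibniz_pow, map_sub, derivative_one,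
        Derivation.leibniz, derivative_X]
      have h4 : derivative A (4 : PowerSeries A) = 0 := by
        have : (4 : PowerSeries A) = C (4 : A) := (map_ofNat C 4).symm
        rw [this, derivative_C]
      rw [h4]
      simp only [smul_eq_mul, nsmul_eq_mul]
      push_cast
      ring
    rw [h1, h]
    ring
  · simp [cen]

theorem c2 : C2Statement := by
  intro A _ _ g
  have hs : HasSubst (X ^ 3 : PowerSeries A) := HasSubst.X_pow (by norm_num)
  refine ⟨(rescale g (cen A)).subst (X ^ 3 : PowerSeries A), ?_, ?_, ?_, ?_⟩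
  · have h := congrArg (substAlgHom hs) (congrArg (rescale g) (cen_sq (A := A)))
    rw [map_mul, map_mul, map_pow, map_pow, map_one, map_one, map_sub, map_sub, map_one, map_one,
      map_mul, map_mul, rescale_X] at h
    have h4 : rescale g (4 : PowerSeries A) = 4 := map_ofNat _ 4
    rw [h4, map_mul] at h
    have h4' : substAlgHom hs (4 : PowerSeries A) = 4 := map_ofNat _ 4
    have hX : substAlgHom hs (X : PowerSeries A) = X ^ 3 := substAlgHom_X hs
    have hC : substAlgHom hs (C g : PowerSeries A) = C g := by
      rw [coe_substAlgHom]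
      exact subst_C g
    rw [h4', hX, hC, coe_substAlgHom] at h
    rw [mul_assoc]
    exact h
  · rw [constantCoeff_subst_X_pow (by norm_num), ← coeff_zero_eq_constantCoeff_apply,
      coeff_rescale]
    simp [cen]
  · intro k
    rw [coeff_subst_X_pow (by norm_num)]
    simp [cen, coeff_rescale, Nat.centralBinom, mul_comm]
  · intro m hm
    rw [coeff_subst_X_pow (by norm_num), if_neg hm]

/-- The inverse of `1 - 3X`. -/
noncomputable def vv (A : Type) [CommRing A] : PowerSeries A :=
  rescale (3 : A) (PowerSeries.mk 1)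

theorem vv_mul : vv A * (1 - 3 * X) = 1 := by
  have h := congrArg (rescale (3 : A)) (mk_one_mul_one_sub_eq_one (S := A))
  rw [map_mul, map_sub, map_one, rescale_X] at h
  have e3 : (3 : PowerSeries A) = C (3 : A) := (map_ofNat C 3).symm
  rw [e3]
  exact h

theorem coeff_vv_pow (d n : ℕ) :
    coeff n (vv A ^ (d + 1)) = 3 ^ n * (Nat.choose (d + n) d : A) := by
  unfold vv
  rw [← map_pow, mk_one_pow_eq_mk_choose_add, coeff_rescale, coeff_mk]

theorem exists_decomp (f : PowerSeries A) (K : ℕ) :
    ∃ r : PowerSeries A, f = ∑ k ∈ range K, C (coeff k f) * X ^ k + X ^ K * r := by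
  have h : (X ^ K : PowerSeries A) ∣ f - ∑ k ∈ range K, C (coeff k f) * X ^ k := by
    rw [X_pow_dvd_iff]
    intro m hm
    rw [map_sub, map_sum]
    have : ∀ k ∈ range K, coeff m (C (coeff k f) * X ^ k) = if m = k then coeff m f else 0 := by
      intro k _
      rw [coeff_C_mul, coeff_X_pow]
      split_ifs with h
      · rw [h, mul_one]
      · rw [mul_zero]
    rw [sum_congr rfl this, sum_ite_eq, if_pos (mem_range.mpr hm), sub_self]
  obtain ⟨r, hr⟩ := h
  exact ⟨r, by rw [← hr]; ring⟩

theorem c1 : C1Statement := by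
  intro A _ _ lam
  set y : PowerSeries A := C lam * X ^ 3 * vv A ^ 2 with hy
  have hs : HasSubst y := by
    apply HasSubst.of_constantCoeff_zero'
    rw [hy]
    simp
  have hX : substAlgHom hs (X : PowerSeries A) = y := substAlgHom_X hs
  have hC : ∀ g : A, substAlgHom hs (C g : PowerSeries A) = C g := by
    intro g
    rw [coe_substAlgHom]
    exact subst_C g
  have hkey : (substAlgHom hs (cen A)) ^ 2 * (1 - 4 * y) = 1 := by
    have h := congrArg (substAlgHom hs) (cen_sq (A := A))
    rw [map_mul, map_pow, map_one, map_sub, map_one, map_mul, hX] at h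
    have h4' : substAlgHom hs (4 : PowerSeries A) = 4 := map_ofNat _ 4
    rw [h4'] at h
    exact h
  have hv := vv_mul (A := A)
  have hcoef : ∀ m : ℕ, 1 ≤ m → coeff (m - 1) (vv A * substAlgHom hs (cen A)) = bcoef A lam m := by
    intro m hm
    obtain ⟨r, hr⟩ := exists_decomp (cen A) m
    have h1 : vv A * substAlgHom hs (cen A) =
        ∑ k ∈ range m, C ((Nat.centralBinom k : A) * lam ^ k) * (X ^ (3 * k) * vv A ^ (2 * k + 1)) +
        X ^ m * (X ^ (2 * m) * (vv A * (C lam * vv A ^ 2) ^ m * substAlgHom hs r)) := by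
      rw [hr, map_add, map_sum, mul_add, mul_sum, map_mul, map_pow, hX]
      congr 1
      · refine sum_congr rfl (fun k _ => ?_)
        rw [map_mul, map_pow, hX, hC, hy]
        have : coeff k (cen A) = (Nat.centralBinom k : A) := by simp [cen]
        rw [this, map_mul, map_pow]
        ring
      · generalize substAlgHom hs r = w
        rw [hy]
        ring
    rw [h1, map_add, map_sum, coeff_X_pow_mul', if_neg (by omega), add_zero]
    unfold bcoef
    refine sum_congr rfl (fun k _ => ?_)
    rw [coeff_C_mul, coeff_X_pow_mul']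
    by_cases h3 : 3 * k + 1 ≤ m
    · rw [if_pos (by omega), if_pos h3, coeff_vv_pow]
      have e1 : 2 * k + (m - 1 - 3 * k) = m - 1 - k := by omega
      rw [e1, Nat.centralBinom]
      ring
    · rw [if_neg (by omega), if_neg h3, mul_zero]
  refine ⟨vv A * substAlgHom hs (cen A), ?_, ?_, hcoef⟩
  · have h1 : (vv A * substAlgHom hs (cen A)) ^ 2 *
        ((1 - 3 * X) ^ 2 - 4 * C lam * X ^ 3) =
        (substAlgHom hs (cen A)) ^ 2 * ((vv A * (1 - 3 * X)) ^ 2 - 4 * (C lam * X ^ 3 * vv A ^ 2)) := by
      ring
    rw [h1, hv, one_pow, ← hy]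
    exact hkey
  · have h1 := hcoef 1 le_rfl
    rw [Nat.sub_self, coeff_zero_eq_constantCoeff_apply] at h1
    rw [h1]
    simp [bcoef]

end Pool.Agent.Lib.MP_748296_nt.H4
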